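import Pool.Agent.H71.CQ.Basic

/-!
# MP_5607ba_lc (two variables with counting quantifiers): row LVI of the board `cqt_modules`
-/

set_option autoImplicit false

open Set Filter

namespace Pool.Agent.H79.CQ

open Pool.Agent.H71.CQ

section

variable {L : Type} {N : NF L} {V V' : Type} {e : V → V → L} {e' : V' → V' → L} {r : ℕ → L}

/-- the points of the levels are algebraic -/
theorem lv_wp {n : ℕ} : ∀ (d : ℕ) (x : V), x ∈ Lv N e r n d → Wp N e x := by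
  intro d
  induction d with
  | zero =>
    rintro x ⟨_, hf⟩
    exact Wp.base x hf
  | succ d ih =>
    rintro x (h | ⟨z, hz, _, _, _, hc⟩)
    · exact ih x h
    · exact Wp.step z x (ih z hz) hc

/-- a map defined on a level which preserves the labels maps the smaller levels into levels -/
theorem map_lv (hs : ∀ q, (Srt e q).Finite → (Srt e' q).Finite) {n : ℕ}
    (f : Lv N e r n n → V') (hf : ∀ x y, e' (f x) (f y) = e x y)
    (hm : ∀ m d, m ≤ n → d ≤ n → Lv N e r m d ⊆ Lv N e r n n) (m : ℕ) (hmn : m ≤ n) :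
    ∀ (d : ℕ), d ≤ n → ∀ (x : V) (_ : x ∈ Lv N e r m d) (h : x ∈ Lv N e r n n),
      f ⟨x, h⟩ ∈ Lv N e' r m d := by
  intro d
  induction d with
  | zero =>
    rintro _ x ⟨⟨i, hi, hx⟩, hfin⟩ h
    refine ⟨⟨i, hi, ?_⟩, ?_⟩
    · rw [hf]
      exact hx
    · rw [hf]
      exact hs _ hfin
  | succ d ih =>
    rintro hd x (hx | ⟨z, hz, i, hi, hzx, hc⟩) h
    · exact Or.inl (ih (by omega) x hx h)
    · have hz' : z ∈ Lv N e r n n := hm m d hmn (by omega) hz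
      refine Or.inr ⟨f ⟨z, hz'⟩, ih (by omega) z hz hz', i, hi, ?_, ?_⟩
      · rw [hf]
        exact hzx
      · rw [hf]
        exact hc

/-- the limit along an ultrafilter -/
theorem lim_ex (U : Ultrafilter ℕ) (hU : (U : Filter ℕ) ≤ atTop)
    (hfin : ∀ m, (Lv N e' r m m).Finite)
    (hm : ∀ n m d, m ≤ n → d ≤ n → Lv N e r m d ⊆ Lv N e r n n)
    (f : ∀ n, Lv N e r n n → V')
    (hf : ∀ n m, m ≤ n → ∀ (x : V) (_ : x ∈ Lv N e r m m) (h : x ∈ Lv N e r n n),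
      f n ⟨x, h⟩ ∈ Lv N e' r m m) (x : V) (hx : ∃ m, x ∈ Lv N e r m m) :
    ∃ y, Wp N e' y ∧ ∀ᶠ n in (U : Filter ℕ), ∃ h : x ∈ Lv N e r n n, f n ⟨x, h⟩ = y := by
  obtain ⟨m, hxm⟩ := hx
  have h1 : (⋃ y ∈ Lv N e' r m m, {n | ∃ h : x ∈ Lv N e r n n, f n ⟨x, h⟩ = y}) ∈ U := by
    have h2 : ∀ᶠ n in (U : Filter ℕ), m ≤ n := hU (eventually_ge_atTop m)
    refine Filter.mem_of_superset h2 ?_
    intro n hn
    have hn' : m ≤ n := hn
    have hxn : x ∈ Lv N e r n n := hm n m m hn' hn' hxm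
    refine mem_iUnion₂.2 ⟨f n ⟨x, hxn⟩, hf n m hn' x hxm hxn, hxn, rfl⟩
  obtain ⟨y, hy, hyU⟩ := (Ultrafilter.finite_biUnion_mem_iff (hfin m)).1 h1
  exact ⟨y, lv_wp m y hy, hyU⟩

end

/-- isomorphisms of the algebraic parts preserve the levels -/
theorem wiso_lv {L : Type} {N : NF L} {V V' : Type} {e : V → V → L} {e' : V' → V' → L}
    {r : ℕ → L} (hs : ∀ q, (Srt e q).Finite → (Srt e' q).Finite)
    {g : {x // Wp N e x} ≃ {x // Wp N e' x}} (hg : WIso N e e' g) (n : ℕ) :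
    ∀ (d : ℕ) (x : V) (_ : x ∈ Lv N e r n d) (h : Wp N e x),
      ((g ⟨x, h⟩ : {x // Wp N e' x}) : V') ∈ Lv N e' r n d := by
  intro d
  induction d with
  | zero =>
    rintro x ⟨⟨i, hi, hx⟩, hfin⟩ h
    have h1 := hg ⟨x, h⟩ ⟨x, h⟩
    refine ⟨⟨i, hi, ?_⟩, ?_⟩
    · rw [h1]
      exact hx
    · rw [h1]
      exact hs _ hfin
  | succ d ih =>
    rintro x (hx | ⟨z, hz, i, hi, hzx, hc⟩) h
    · exact Or.inl (ih x hx h)
    · have hz' : Wp N e z := lv_wp d z hz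
      have h1 := hg ⟨z, hz'⟩ ⟨x, h⟩
      refine Or.inr ⟨g ⟨z, hz'⟩, ih z hz hz', i, hi, ?_, ?_⟩
      · rw [h1]
        exact hzx
      · rw [h1]
        exact hc

theorem pf_LVI (hLVF : T_LVF) : T_LVI := by
  intro L N hN V V' e e' he he' hsrt r hr hr'
  obtain ⟨lf, lm, lw⟩ := hLVF L N hN V e he r hr
  obtain ⟨lf', lm', lw'⟩ := hLVF L N hN V' e' he' r hr'
  have hs : ∀ q, (Srt e q).Finite → (Srt e' q).Finite := fun q h => by
    by_contra h'
    exact (hsrt q).2 h' h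
  have hs' : ∀ q, (Srt e' q).Finite → (Srt e q).Finite := fun q h => by
    by_contra h'
    exact (hsrt q).1 h' h
  constructor
  · rintro ⟨g, hg⟩ n
    refine ⟨⟨fun x => ⟨g ⟨x.1, lv_wp n x.1 x.2⟩, wiso_lv hs hg n n x.1 x.2 _⟩,
      fun y => ⟨g.symm ⟨y.1, lv_wp n y.1 y.2⟩, wiso_lv hs' hg.symm n n y.1 y.2 _⟩, ?_, ?_⟩, ?_⟩
    · intro x
      apply Subtype.ext
      change ((g.symm ⟨((g ⟨x.1, _⟩ : {x // Wp N e' x}) : V'), _⟩ : {x // Wp N e x}) : V) = x.1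
      rw [Subtype.coe_eta, g.symm_apply_apply]
    · intro y
      apply Subtype.ext
      change ((g ⟨((g.symm ⟨y.1, _⟩ : {x // Wp N e x}) : V), _⟩ : {x // Wp N e' x}) : V') = y.1
      rw [Subtype.coe_eta, g.apply_symm_apply]
    · intro x y
      exact hg _ _
  · intro h
    choose f hf using h
    have hm : ∀ n m d, m ≤ n → d ≤ n → Lv N e r m d ⊆ Lv N e r n n :=
      fun n m d h1 h2 => lm m d n n h1 h2
    have hm' : ∀ n m d, m ≤ n → d ≤ n → Lv N e' r m d ⊆ Lv N e' r n n :=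
      fun n m d h1 h2 => lm' m d n n h1 h2
    have hf1 : ∀ n m, m ≤ n → ∀ (x : V) (_ : x ∈ Lv N e r m m) (h : x ∈ Lv N e r n n),
        ((f n ⟨x, h⟩ : Lv N e' r n n) : V') ∈ Lv N e' r m m := fun n m hmn x hx h =>
      map_lv hs (fun x => ((f n x : Lv N e' r n n) : V')) (hf n) (hm n) m hmn m hmn x hx h
    have hf2 : ∀ n m, m ≤ n → ∀ (x : V') (_ : x ∈ Lv N e' r m m) (h : x ∈ Lv N e' r n n),
        (((f n).symm ⟨x, h⟩ : Lv N e r n n) : V) ∈ Lv N e r m m := fun n m hmn x hx h =>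
      map_lv hs' (fun x => (((f n).symm x : Lv N e r n n) : V)) (fun x y => by
        rw [← hf n, (f n).apply_symm_apply, (f n).apply_symm_apply]) (hm' n) m hmn m hmn x hx h
    have hU : ((hyperfilter ℕ : Ultrafilter ℕ) : Filter ℕ) ≤ atTop := by
      rw [← Nat.cofinite_eq_atTop]
      exact hyperfilter_le_cofinite
    have h1 : ∀ x : {x // Wp N e x}, ∃ y : {x // Wp N e' x},
        ∀ᶠ n in ((hyperfilter ℕ : Ultrafilter ℕ) : Filter ℕ), ∃ h : x.1 ∈ Lv N e r n n,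
          ((f n ⟨x.1, h⟩ : Lv N e' r n n) : V') = y.1 := by
      intro x
      obtain ⟨y, hy, hyU⟩ := lim_ex (hyperfilter ℕ) hU (fun m => lf' m m) hm
        (fun n x => ((f n x : Lv N e' r n n) : V')) hf1 x.1 ((lw x.1).1 x.2)
      exact ⟨⟨y, hy⟩, hyU⟩
    have h2 : ∀ y : {x // Wp N e' x}, ∃ x : {x // Wp N e x},
        ∀ᶠ n in ((hyperfilter ℕ : Ultrafilter ℕ) : Filter ℕ), ∃ h : y.1 ∈ Lv N e' r n n,
          (((f n).symm ⟨y.1, h⟩ : Lv N e r n n) : V) = x.1 := by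
      intro y
      obtain ⟨x, hx, hxU⟩ := lim_ex (hyperfilter ℕ) hU (fun m => lf m m) hm'
        (fun n x => (((f n).symm x : Lv N e r n n) : V)) hf2 y.1 ((lw' y.1).1 y.2)
      exact ⟨⟨x, hx⟩, hxU⟩
    choose g0 hg0 using h1
    choose k0 hk0 using h2
    have hinj : Function.Injective g0 := by
      intro x x' hxx
      have h3 := hg0 x
      have h4 := hg0 x'
      rw [← hxx] at h4
      obtain ⟨n, ⟨a, ha⟩, ⟨b, hb⟩⟩ := (h3.and h4).exists
      have h5 : f n ⟨x.1, a⟩ = f n ⟨x'.1, b⟩ := Subtype.ext (ha.trans hb.symm)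
      have h6 := (f n).injective h5
      exact Subtype.ext (congrArg (fun z : Lv N e r n n => z.1) h6)
    have hsurj : Function.Surjective g0 := by
      intro y
      refine ⟨k0 y, ?_⟩
      obtain ⟨n, ⟨a, ha⟩, ⟨b, hb⟩⟩ := ((hg0 (k0 y)).and (hk0 y)).exists
      have h5 : (⟨(k0 y).1, a⟩ : Lv N e r n n) = (f n).symm ⟨y.1, b⟩ := Subtype.ext hb.symm
      rw [h5, (f n).apply_symm_apply] at ha
      exact (Subtype.ext ha).symm
    refine ⟨Equiv.ofBijective g0 ⟨hinj, hsurj⟩, ?_⟩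
    intro x y
    obtain ⟨n, ⟨a, ha⟩, ⟨b, hb⟩⟩ := ((hg0 x).and (hg0 y)).exists
    change e' (g0 x).1 (g0 y).1 = e x.1 y.1
    rw [← ha, ← hb]
    exact hf n _ _

end Pool.Agent.H79.CQ
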