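import Pool.Agent.H71.CQ.Basic

/-!
# MP_5607ba_lc (two variables with counting quantifiers): row UNI of the board `cqt_modules`
-/

set_option autoImplicit false

open Set Filter

namespace Pool.Agent.H79.CQ

open Pool.Agent.H71.CQ

theorem hg_meas (m n : ℕ) : MeasurableSet {u : ℕ → Bool | Hg u m n} := by
  have h : {u : ℕ → Bool | Hg u m n} = (fun u : ℕ → Bool => u (n - 4)) ⁻¹'
      {b : Bool | (4 ≤ m ∧ (n = 0 ∨ n = 2)) ∨ (4 ≤ n ∧ (m = 0 ∨ m = 2)) ∨
        (4 ≤ m ∧ 4 ≤ n ∧ m - 4 < 2 * (n - 4) + (if b = true then 1 else 0))} := rfl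
  rw [h]
  exact (measurable_pi_apply (n - 4)) MeasurableSet.of_discrete

theorem cl_meas {L : Type} [MeasurableSpace L] (N : NF L) (e : ℕ → ℕ → L) (x y : ℕ) (l0 l1 : L)
    (v w : SQ N fun _ : Bool × ℕ => e) :
    Measurable fun u : ℕ → Bool => Cl N e x y l0 l1 u v w := by
  unfold Cl
  split_ifs
  · exact Measurable.ite (hg_meas _ _) measurable_const measurable_const
  · exact measurable_const

theorem cr_meas {L : Type} [MeasurableSpace L] (N : NF L) (hr : Measurable N.rev)
    (e : ℕ → ℕ → L) (x y : ℕ) (l0 l1 : L) (v w : SQ N fun _ : Bool × ℕ => e) :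
    Measurable fun u : ℕ → Bool => Cr N e x y l0 l1 u v w := by
  unfold Cr
  split_ifs
  · exact cl_meas N e x y l0 l1 v w
  · exact hr.comp (cl_meas N e x y l0 l1 w v)

theorem ue_meas {L : Type} [MeasurableSpace L] (N : NF L) (hr : Measurable N.rev)
    (e : ℕ → ℕ → L) (x y : ℕ) (l0 l1 : L) (a b : SV N e fun _ : Bool × ℕ => e) :
    Measurable fun u : ℕ → Bool => UE N e x y l0 l1 u a b := by
  rcases a with k | v <;> rcases b with k' | w
  · exact measurable_const
  · exact measurable_const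
  · exact measurable_const
  · unfold UE SE
    simp only
    split_ifs
    · exact measurable_const
    · exact cr_meas N hr e x y l0 l1 v w

theorem pf_UNI (hCTV : T_CTV) (hSUM : T_SUM) (hUNH : T_UNH) (hUNC : T_UNC) : T_UNI := by
  intro L _ _ N hN hP hF e he x y hx hy l0 h0 l1 h1
  by_contra hne
  apply hP
  have hinf : Infinite (SV N e fun _ : Bool × ℕ => e) := by
    refine Infinite.of_injective
      (fun m : ℕ => (Sum.inr ⟨(false, m), x, hx⟩ : SV N e fun _ : Bool × ℕ => e)) ?_
    intro m m' h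
    have h2 := Sum.inr.inj h
    have h3 := congrArg (fun v : SQ N fun _ : Bool × ℕ => e => v.1.2) h2
    exact h3
  refine hCTV L N (SV N e fun _ : Bool × ℕ => e) (fun u => UE N e x y l0 l1 u)
    (fun a b => ue_meas N hN.rev e x y l0 l1 a b) (fun u => ?_) (fun u => ?_)
  · exact hSUM L N hN.toSep e (Bool × ℕ) (fun _ => e) (fun _ => Equiv.refl _) _
      (hUNH L N hN.toSep hF e he x y hx hy l0 h0 l1 h1 u)
  · exact hUNC L N hN.toSep e he x y hx hy l0 l1 hne u

end Pool.Agent.H79.CQ
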